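import Mathlib
import Pool.Agent.Zk44.XO.Div
import Pool.Agent.Zk44.GE.Main

/-!
# Gel'fond's conjecture for all exponents at once: all but polynomially many combinations of logarithms, and the logarithms of the divisors of every integer

We consider nonzero polynomials of any degree in `s + n` variables, `s` arbitrary, which can be computed
from the variables and algebraic numbers with at most `L` additions and arbitrarily many multiplications.
Call a point `(y_1, …, y_n)` of `ℂ ^ n` good if for ALL `s` and ALL `ℚ`-linearly independent algebraic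
numbers `α_1, …, α_s` no such polynomial vanishes at `(e^{α_1}, …, e^{α_s}, y_1, …, y_n)`.

**Theorem.** For all `n ≥ 1` and `L` there is a number `c` with the following two properties.

(1) Let `N ≥ 1` and for every `j ≤ n` let `λ_{j,1}, …, λ_{j,N}` be logarithms of algebraic numbers which are
linearly independent over `ℚ` (for different `j` they may be the same), let `ζ_j` be arbitrary complex
numbers, `A` a finite set of algebraic numbers and `X` a subset of `A ^ N`. For all but
`(c N |A|)^c |X|^(n - 1)` of the `|X|^n` matrices `a = (a_{j,i})` with rows in `X` the point with the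
coordinates `y_j = ζ_j + ∑_i a_{j,i} λ_{j,i}` is good.

(2) For every integer `M ≥ 2` and every set `D` of divisors of `M` the point `(log d_1, …, log d_n)` is
good for all but `(c log M)^c |D|^(n - 1)` of the `|D|^n` tuples of elements of `D` (`log` to the base `2`,
rounded down).

For example, for `A = {0, 1}` and `ζ = 0` the numbers `y_j` are logarithms of products of subsets of `N`
given algebraic numbers, and of the `2 ^ (n N)` tuples of such products all but `(2 c N)^c 2 ^ ((n - 1) N)`
are good.

The proof: there is a derivation `Δ` of `ℂ` with `Δ e^γ = γ e^γ` for all algebraic numbers `γ` whose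
constants are the algebraic numbers. All numbers `y` which satisfy a relation with few additions with any
exponentials are solutions of one nonzero algebraic differential equation of bounded order and degree. The
jets of such a solution `y = ζ + ∑ a_i λ_i` of order up to `N`, of which the `a_i` are linear functions by
Baker's theorem, are rational functions of the jets of bounded order, with degrees `O(N)`, and a count of
monomials gives `(c N |A|)^c` for the number of these `a` (`Pool.Agent.Zk44.GP.dimX`).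
-/

set_option autoImplicit false

namespace Pool.Agent.Results.MP_c82530_nt.CombinationsAndDivisors

/-- For `l < L` the polynomial `G l` is the sum of two products of powers of the variables, of the earlier
polynomials `G 0, …, G (l - 1)` and of an algebraic number: it is computed with one more addition. -/
def Computed {ι : Type} [Fintype ι] (L : ℕ)
    (G : ℕ → MvPolynomial ι (algebraicClosure ℚ ℂ)) : Prop :=
  ∃ (c : ℕ → Bool → algebraicClosure ℚ ℂ) (a : ℕ → Bool → ι → ℕ) (h : ℕ → Bool → ℕ → ℕ),
    ∀ l < L, G l = ∑ b : Bool, MvPolynomial.C (c l b) * (∏ i, MvPolynomial.X i ^ a l b i) *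
      ∏ l' ∈ Finset.range l, G l' ^ h l b l'

/-- For all `s` and all `ℚ`-linearly independent algebraic numbers `α_1, …, α_s`: no nonzero polynomial
in `s + m` variables which is computed with at most `L` additions vanishes at
`(e^{α_1}, …, e^{α_s}, y_1, …, y_m)`. -/
def NoRelation {m : ℕ} (L : ℕ) (y : Fin m → ℂ) : Prop :=
  ∀ (s : ℕ) (α : Fin s → ℂ), (∀ i, IsAlgebraic ℚ (α i)) → LinearIndependent ℚ α →
    ∀ G : ℕ → MvPolynomial (Fin s ⊕ Fin m) (algebraicClosure ℚ ℂ), Computed L G →
    ∀ j < L, G j ≠ 0 →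
      MvPolynomial.aeval (Sum.elim (fun i => Complex.exp (α i)) y) (G j) ≠ 0

theorem noRelation_of_good {m L : ℕ} (y : Fin m → ℂ)
    (h : ∀ γ : Fin (2 * L) → algebraicClosure ℚ ℂ, Pool.Agent.R351.GoodT (algebraicClosure ℚ ℂ)
      (Pool.Agent.Zk44.GE.ap γ (fun i : Fin 0 => (i.elim0 : ℂ))) L y) : NoRelation L y := by
  classical
  intro s α hα hαi G hG j hj hG0 h0
  have hind : AlgebraicIndependent (algebraicClosure ℚ ℂ) (fun i => Complex.exp (α i)) :=
    Pool.Agent.H297R2.exp_algebraicIndependent α hα hαi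
  let α' : Fin s → algebraicClosure ℚ ℂ := fun i => ⟨α i, mem_algebraicClosure_iff.2 (hα i)⟩
  let Φ : MvPolynomial (Fin s ⊕ Fin m) (algebraicClosure ℚ ℂ) →ₐ[algebraicClosure ℚ ℂ]
      MvPolynomial (Fin m) ℂ :=
    MvPolynomial.aeval (Sum.elim (fun i => MvPolynomial.C (Complex.exp (α i))) MvPolynomial.X :
      Fin s ⊕ Fin m → MvPolynomial (Fin m) ℂ)
  have hΦ : Pool.Agent.Zk44.GE.Computed (fun i : Fin 0 => (i.elim0 : ℂ)) L (fun l => Φ (G l)) := by
    obtain ⟨c, a, h, hG⟩ := hG
    refine ⟨c, fun l b => ∑ i, ((a l b (Sum.inl i) : ℕ) : algebraicClosure ℚ ℂ) * α' i,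
      fun _ _ _ => 0, fun l b i => a l b (Sum.inr i), h, fun l hl => ?_⟩
    show Φ (G l) = _
    rw [hG l hl, map_sum]
    refine Finset.sum_congr rfl fun b _ => ?_
    have e4 : ((∑ i, ((a l b (Sum.inl i) : ℕ) : algebraicClosure ℚ ℂ) * α' i :
        algebraicClosure ℚ ℂ) : ℂ) = ∑ i, ((a l b (Sum.inl i) : ℕ) : ℂ) * α i := by
      push_cast
      rfl
    rw [e4, Complex.exp_sum, Fintype.prod_sum_type]
    simp only [Finset.univ_eq_empty, Finset.prod_empty, mul_one, Complex.exp_nat_mul, map_mul,
      map_prod, map_pow]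
    have e5 : Φ (MvPolynomial.C (c l b)) = MvPolynomial.C ((c l b : algebraicClosure ℚ ℂ) : ℂ) := by
      show MvPolynomial.aeval _ (MvPolynomial.C (c l b)) = _
      rw [MvPolynomial.aeval_C, IsScalarTower.algebraMap_apply (algebraicClosure ℚ ℂ) ℂ
        (MvPolynomial (Fin m) ℂ), MvPolynomial.algebraMap_eq]
      rfl
    have e6 : ∀ i, Φ (MvPolynomial.X (Sum.inl i)) = MvPolynomial.C (Complex.exp (α i)) := by
      intro i
      show MvPolynomial.aeval _ (MvPolynomial.X (Sum.inl i)) = _
      rw [MvPolynomial.aeval_X, Sum.elim_inl]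
    have e7 : ∀ i, Φ (MvPolynomial.X (Sum.inr i)) = MvPolynomial.X i := by
      intro i
      show MvPolynomial.aeval _ (MvPolynomial.X (Sum.inr i)) = _
      rw [MvPolynomial.aeval_X, Sum.elim_inr]
    simp only [e5, e6, e7]
    ring
  have hne : Φ (G j) ≠ 0 := Pool.Agent.Zk44.GE.subst_ne_zero _ hind (G j) hG0
  obtain ⟨γ, hγ⟩ := hΦ.cmp
  apply hne
  refine h γ _ hγ j hj ?_
  show MvPolynomial.eval y (Φ (G j)) = 0
  rw [← h0]
  have e8 : ((MvPolynomial.aeval y : MvPolynomial (Fin m) ℂ →ₐ[ℂ] ℂ).restrictScalars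
      (algebraicClosure ℚ ℂ)).comp Φ =
      MvPolynomial.aeval (Sum.elim (fun i => Complex.exp (α i)) y) := by
    apply MvPolynomial.algHom_ext
    rintro (i | i)
    · simp [Φ]
    · simp [Φ]
  exact DFunLike.congr_fun e8 (G j)

open Classical in
/-- **Main result.** -/
theorem result (n L : ℕ) : ∃ c : ℕ,
    (∀ N : ℕ, 1 ≤ N → ∀ lam : Fin (n + 1) → Fin N → ℂ,
      (∀ j i, IsAlgebraic ℚ (Complex.exp (lam j i))) → (∀ j, LinearIndependent ℚ (lam j)) →
      ∀ (ζ : Fin (n + 1) → ℂ) (A : Finset (algebraicClosure ℚ ℂ))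
      (X : Finset (Fin N → algebraicClosure ℚ ℂ)), A.Nonempty → (∀ v ∈ X, ∀ i, v i ∈ A) →
      ((Fintype.piFinset fun _ : Fin (n + 1) => X).filter
        (fun a : Fin (n + 1) → Fin N → algebraicClosure ℚ ℂ => ¬ NoRelation L
          (fun j => ζ j + ∑ i : Fin N, (a j i : ℂ) * lam j i))).card ≤
        (c * N * A.card) ^ c * X.card ^ n) ∧
    (∀ M : ℕ, 2 ≤ M → ∀ (D : Finset ℕ), D ⊆ M.divisors →
      ((Fintype.piFinset fun _ : Fin (n + 1) => D).filter
        (fun d : Fin (n + 1) → ℕ => ¬ NoRelation L (fun j => (Real.log (d j) : ℂ)))).card ≤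
        (c * Nat.log 2 M) ^ c * D.card ^ n) := by
  obtain ⟨c, hc⟩ := Pool.Agent.Zk44.GP.dimX (2 * L) L (n + 1) 0
  have key : ∀ N : ℕ, 1 ≤ N → ∀ lam : Fin (n + 1) → Fin N → ℂ,
      (∀ j i, IsAlgebraic ℚ (Complex.exp (lam j i))) → (∀ j, LinearIndependent ℚ (lam j)) →
      ∀ (ζ : Fin (n + 1) → ℂ) (A : Finset (algebraicClosure ℚ ℂ))
      (X : Finset (Fin N → algebraicClosure ℚ ℂ)), A.Nonempty → (∀ v ∈ X, ∀ i, v i ∈ A) →
      ((Fintype.piFinset fun _ : Fin (n + 1) => X).filter
        (fun a : Fin (n + 1) → Fin N → algebraicClosure ℚ ℂ => ¬ NoRelation L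
          (fun j => ζ j + ∑ i : Fin N, (a j i : ℂ) * lam j i))).card ≤
        ((2 * c + 1) * N * A.card) ^ (2 * c + 1) * X.card ^ n := by
    intro N hN lam halg hlam ζ A X hA hX
    have h1 := hc N (fun i : Fin 0 => (i.elim0 : ℂ)) lam (fun j => by
      rw [Fintype.linearIndependent_iff]
      intro g hg i
      have h1 := Pool.Agent.H297R2.baker (lam j) (halg j) (hlam j) (fun i => (g i : ℂ))
        (fun i => mem_algebraicClosure_iff.1 (g i).2) (by
          rw [← hg]
          refine Finset.sum_congr rfl fun i _ => ?_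
          rw [Algebra.smul_def]
          rfl) i
      exact Subtype.ext h1) ζ A X hA hX
    refine Pool.Agent.Zk44.GP.final_boundX c hN hA.card_pos (fun h0 => ?_)
      (le_trans (Nat.mul_le_mul_right _ (Finset.card_le_card ?_)) h1)
    · rw [Finset.card_eq_zero] at h0 ⊢
      subst h0
      rw [Finset.filter_eq_empty_iff]
      intro a ha
      have := Fintype.mem_piFinset.1 ha 0
      simp at this
    · intro a ha
      have ha := Finset.mem_filter.1 ha
      exact (@Finset.mem_filter _ _ (_) _ _).2 ⟨ha.1, fun hI => ha.2 (noRelation_of_good _ hI)⟩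
  refine ⟨2 * (2 * c + 1) + 1, fun N hN lam halg hlam ζ A X hA hX => ?_, fun M hM D hD => ?_⟩
  · refine (key N hN lam halg hlam ζ A X hA hX).trans (Nat.mul_le_mul_right _ ?_)
    have h2 : 1 ≤ (2 * (2 * c + 1) + 1) * N * A.card :=
      Nat.mul_pos (Nat.mul_pos (by omega) hN) hA.card_pos
    calc ((2 * c + 1) * N * A.card) ^ (2 * c + 1)
        ≤ ((2 * (2 * c + 1) + 1) * N * A.card) ^ (2 * c + 1) := by
          gcongr
          omega
      _ ≤ _ := Nat.pow_le_pow_right h2 (by omega)
  · exact Pool.Agent.Zk44.XO.divisors_of n (2 * c + 1) (NoRelation L) key M hM D hD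

end Pool.Agent.Results.MP_c82530_nt.CombinationsAndDivisors
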