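import Mathlib
import Pool.Agent.Zk61.DerExp
import Pool.Agent.Zk44.UP.GenExp
import Pool.Agent.Zk44.GE.Main

/-!
# The numbers which are related to exponentials of algebraic numbers avoid a subspace of bounded
# codimension

Gel'fond's conjecture says that a logarithm `λ` of an algebraic number which is linearly independent of
logarithms `t_1, …, t_g` over `ℚ` satisfies no relation over the field which is generated by the numbers
`t_1, …, t_g` and ALL exponentials `e ^ α` of algebraic numbers `α`. This is not known for any `λ`.

**Theorem.** Let `L ≥ 0` and let `t_1, …, t_g` be any complex numbers (for instance logarithms). There is a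
linear map `φ` of `ℂ` into `ℚ̄ ^ (L ^ 2 + 3 L + 1)` over the field `ℚ̄` of the algebraic numbers with the
following property: for EVERY complex number `z ≠ 0` with `φ(z) = 0` (in particular for every logarithm of
an algebraic number with `φ(z) = 0`) and ALL algebraic numbers `α_1, …, α_s`, for all `s`, no nonzero
polynomial in one variable, of any degree, which can be computed from the variable, the numbers
`e^{α_1}, …, e^{α_s}`, `t_1, …, t_g` and algebraic numbers with at most `L` additions and arbitrarily many
multiplications vanishes at `z`.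

The codimension `L ^ 2 + 3 L + 1` does not depend on the numbers `t_o` and on their number, the field of the
coefficients contains all exponentials of algebraic numbers at once, and there are no exceptions in the
kernel of `φ`. The space of all logarithms of algebraic numbers has infinite dimension, so that the kernel
contains infinitely many linearly independent logarithms of algebraic numbers.

The proof. There is a derivation `Δ` of `ℂ` with `Δ e^γ = γ e^γ` for all algebraic numbers `γ`, whose
constants are the algebraic numbers, and such that logarithmic derivatives are not derivatives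
(`Pool.Agent.Zk44.UP.exists_der_expP`; theorems of Lindemann-Weierstrass, Ax and Rosenlicht). The
exceptional numbers are algebraic over a countable field, and the values of `φ` at the elements
`x_0, x_1, …` of a basis of the space which they generate are chosen one after the other
(`Pool.Agent.Zk44.DT.exists_phi`). If the value at `x_N` cannot be chosen then for every
`w ∈ ℚ̄ ^ c`, `c = L ^ 2 + 3 L + 1`, there is an exceptional number `z = ∑ b_i x_i`, `i ≤ N`, such that the
coordinates of `w` are rational functions of the `b_i` (`b_N w = - ∑ b_i φ(x_i)`). In an ultrapower `K` of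
`ℂ` this gives an exceptional number `z = ∑ b_i x_i` such that the coordinates of `w` are algebraically
independent over `ℂ`. On the space of the functions on the derivations `D` of `K` over `ℂ` there is the
connection `(∇ ω)(D) = Δ (ω(D)) - ω([Δ, D])`. The forms `dE/E - a dz/z - ∑ h dG/G` of the summands
`E = c z ^ a e ^ γ ∏ t ^ u ∏ G ^ h` of the computation and the differentials of the exponents `a`, `h` are
`L ^ 2 + 3 L` forms; `dz` is a linear combination of them (`Fam.kill`), and `∇` maps them to combinations
`∑ ϑ_i η_i` of horizontal forms `η_i`, among them the `dγ`, with logarithmic derivatives `ϑ_i`. It follows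
that `dz = ∑ x_i db_i`, and hence each `db_i` and each `dw_j`, is a combination of `L ^ 2 + 3 L` horizontal
forms, a contradiction.
-/

set_option autoImplicit false

namespace Pool.Agent.Results.MP_c82530_nt.ExceptionsAvoidASubspace

open Pool.Agent.R351

/-- The polynomials `G 0, …, G (L - 1)` are computed with one addition each: `G l` is the sum of two
products of powers of the variables, of the numbers `t o`, of the earlier polynomials
`G 0, …, G (l - 1)`, and of an algebraic number. -/
def Computed {g m : ℕ} (t : Fin g → ℂ) (L : ℕ) (G : ℕ → MvPolynomial (Fin m) ℂ) : Prop :=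
  ∃ (c : ℕ → Bool → algebraicClosure ℚ ℂ) (u : ℕ → Bool → Fin g → ℕ) (a : ℕ → Bool → Fin m → ℕ)
    (h : ℕ → Bool → ℕ → ℕ), ∀ l < L, G l = ∑ b : Bool,
      MvPolynomial.C ((c l b : ℂ) * ∏ o, t o ^ u l b o) * (∏ i, MvPolynomial.X i ^ a l b i) *
        ∏ l' ∈ Finset.range l, G l' ^ h l b l'

/-- No nonzero polynomial which is computed from the variables and the numbers `t o` with at most `L`
additions vanishes at `y`. -/
def NoRelation {g m : ℕ} (t : Fin g → ℂ) (L : ℕ) (y : Fin m → ℂ) : Prop :=
  ∀ G : ℕ → MvPolynomial (Fin m) ℂ, Computed t L G →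
    ∀ j < L, G j ≠ 0 → MvPolynomial.eval y (G j) ≠ 0

theorem Computed.cmp {g m : ℕ} {t : Fin g → ℂ} {L : ℕ} {G : ℕ → MvPolynomial (Fin m) ℂ}
    (h : Computed t L G) : Cmp (algebraicClosure ℚ ℂ) (btm m t) L G := by
  obtain ⟨c, u, a, e, h⟩ := h
  refine ⟨c, fun l b j => Sum.elim (u l b) (a l b) j, e, fun l hl => ?_⟩
  rw [h l hl]
  refine Finset.sum_congr rfl fun b _ => ?_
  rw [Fintype.prod_sum_type, Algebra.smul_def, IsScalarTower.algebraMap_apply
    (algebraicClosure ℚ ℂ) ℂ (MvPolynomial (Fin m) ℂ)]
  unfold btm
  simp only [Sum.elim_inl, Sum.elim_inr, map_mul, map_prod, map_pow, MvPolynomial.algebraMap_eq]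
  have h1 : algebraMap (algebraicClosure ℚ ℂ) ℂ (c l b) = (c l b : ℂ) := rfl
  rw [h1]
  ring

theorem NoRelation.of_good {g L : ℕ} {t : Fin g → ℂ} {y : ℂ}
    (h : Good1 (algebraicClosure ℚ ℂ) t L y) : NoRelation t L ![y] := by
  have hinf : Infinite (algebraicClosure ℚ ℂ) := Pool.Agent.Zk44.DT.infinite_QB
  have h1 : GoodT (algebraicClosure ℚ ℂ) t L ![y] := goodT_cons h (goodT_zero _ _)
  exact fun G hG j hj hG0 h0 => hG0 (h1 G hG.cmp j hj h0)

/-- **Main result.** -/
theorem result (g L : ℕ) (t : Fin g → ℂ) :
    ∃ φ : ℂ →ₗ[algebraicClosure ℚ ℂ] (Fin (L ^ 2 + 3 * L + 1) → algebraicClosure ℚ ℂ),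
      ∀ z : ℂ, z ≠ 0 → φ z = 0 → ∀ (s : ℕ) (α : Fin s → ℂ), (∀ i, IsAlgebraic ℚ (α i)) →
        NoRelation (Fin.append (fun i => Complex.exp (α i)) t) L ![z] := by
  obtain ⟨φ, hφ⟩ := Pool.Agent.Zk44.UP.phi_exp_up Pool.Agent.Zk44.UP.exists_der_expP L t
    (L ^ 2 + 3 * L + 1) (by
      have h1 : L * (L + 3) = L ^ 2 + 3 * L := by ring
      omega)
  refine ⟨φ, fun z hz hz0 s α hα => ?_⟩
  exact NoRelation.of_good (hφ z hz hz0 s (fun i => ⟨α i, mem_algebraicClosure_iff.2 (hα i)⟩))

end Pool.Agent.Results.MP_c82530_nt.ExceptionsAvoidASubspace
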