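import Mathlib
import Pool.Agent.Zk61.DerExp
import Pool.Agent.Zk44.GE.Main
import Pool.Agent.Zk44.UQ.OneBasisExp

/-!
# One basis of the space of all logarithms, with all exponentials of algebraic numbers, for computations of
# all lengths

The conjecture of Gel'fond says that `e^{α_1}, …, e^{α_s}, λ_1, …, λ_n` are algebraically independent if
the algebraic numbers `α_1, …, α_s` and the logarithms `λ_1, …, λ_n` of algebraic numbers are linearly
independent over `ℚ`. For `L ≥ 0` consider the polynomials of any degree which can be computed from the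
variables and algebraic numbers with at most `L` additions and arbitrarily many multiplications.

**Theorem.** Let `L₀ ≥ 0`, let `ξ_0, ξ_1, …` be arbitrary complex numbers and let `h : ℕ → ℕ` be
nondecreasing. Every linear space `V` over `ℚ` of logarithms of algebraic numbers, of finite or infinite
dimension `> L₀ ^ 2 + 3 L₀`, has a basis `b_0, b_1, …` such that:

(1) For ALL `s`, ALL linearly independent algebraic numbers `α_1, …, α_s`, all `L ≤ L₀` and all distinct
elements `λ_1, …, λ_n` of the basis, no nonzero polynomial in `s + n` variables which is computed from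
the variables and algebraic numbers with at most `L` additions vanishes at
`(e^{α_1}, …, e^{α_s}, λ_1, …, λ_n)`.

(2) For all `L`, `M` with `L ≤ L₀` or `L ^ 2 + 3 L < M` and ALL algebraic `α_1, …, α_s`: no nonzero
polynomial which is computed from the variables, the numbers `e^{α_1}, …, e^{α_s}`, the numbers
`b_0, …, b_{M-1}`, the numbers `ξ_0, …, ξ_{h(M)-1}` and algebraic numbers with at most `L` additions
vanishes at distinct elements among `b_M, b_{M+1}, …`.

So ONE basis of the space of ALL logarithms works for all `L`: its tails satisfy no relation with at most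
`L` additions, over all exponentials of algebraic numbers, over the earlier elements and over more and more
of the prescribed numbers `ξ_i` (for example all periods).

The proof. The basis is chosen as in `Pool.Agent.Zk44.UQ.OneBasis`, outside of hypersurfaces. Let `x_1, …,
x_N` be independent logarithms, `N > L ^ 2 + 3 L`. There is a nonzero polynomial `f` in `N` variables such
that `f(b) = 0` for all rational points `b` such that `e₀ + ∑ b_i x_i` satisfies a nontrivial relation with
at most `L` additions over given numbers and SOME exponentials of algebraic numbers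
(`Pool.Agent.Zk44.UP.poly_QE`). Here the derivation `Δ` of `ℂ` satisfies `Δ e^γ = γ e^γ` for all algebraic
`γ`, its constants are the algebraic numbers, and logarithmic derivatives are not derivatives.
-/

set_option autoImplicit false

namespace Pool.Agent.Results.MP_c82530_nt.OneBasisAllExponents

open Pool.Agent.R351

/-- For `l < L` the polynomial `G l` is the sum of two products of powers of the variables, of the earlier
polynomials `G 0, …, G (l - 1)` and of an algebraic number: it is computed with one more addition. -/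
def Computed {ι : Type} [Fintype ι] (L : ℕ)
    (G : ℕ → MvPolynomial ι (algebraicClosure ℚ ℂ)) : Prop :=
  ∃ (c : ℕ → Bool → algebraicClosure ℚ ℂ) (a : ℕ → Bool → ι → ℕ) (h : ℕ → Bool → ℕ → ℕ),
    ∀ l < L, G l = ∑ b : Bool, MvPolynomial.C (c l b) * (∏ i, MvPolynomial.X i ^ a l b i) *
      ∏ l' ∈ Finset.range l, G l' ^ h l b l'

/-- For all `s` and all `ℚ`-linearly independent algebraic numbers `α_1, …, α_s`: no nonzero polynomial
in `s + m` variables which is computed with at most `L` additions vanishes at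
`(e^{α_1}, …, e^{α_s}, y_1, …, y_m)`. -/
def NoRelation {m : ℕ} (L : ℕ) (y : Fin m → ℂ) : Prop :=
  ∀ (s : ℕ) (α : Fin s → ℂ), (∀ i, IsAlgebraic ℚ (α i)) → LinearIndependent ℚ α →
    ∀ G : ℕ → MvPolynomial (Fin s ⊕ Fin m) (algebraicClosure ℚ ℂ), Computed L G →
    ∀ j < L, G j ≠ 0 →
      MvPolynomial.aeval (Sum.elim (fun i => Complex.exp (α i)) y) (G j) ≠ 0

/-- The polynomials `G 0, …, G (L - 1)` with complex coefficients are computed with one addition each:
`G l` is the sum of two products of powers of the variables, of the numbers `t o`, of the earlier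
polynomials `G 0, …, G (l - 1)`, and of an algebraic number. -/
def ComputedOver {g m : ℕ} (t : Fin g → ℂ) (L : ℕ) (G : ℕ → MvPolynomial (Fin m) ℂ) : Prop :=
  ∃ (c : ℕ → Bool → algebraicClosure ℚ ℂ) (u : ℕ → Bool → Fin g → ℕ) (a : ℕ → Bool → Fin m → ℕ)
    (h : ℕ → Bool → ℕ → ℕ), ∀ l < L, G l = ∑ b : Bool,
      MvPolynomial.C ((c l b : ℂ) * ∏ o, t o ^ u l b o) * (∏ i, MvPolynomial.X i ^ a l b i) *
        ∏ l' ∈ Finset.range l, G l' ^ h l b l'

/-- No nonzero polynomial which is computed from the variables and the numbers `t o` with at most `L`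
additions vanishes at `y`. -/
def NoRelationOver {g m : ℕ} (t : Fin g → ℂ) (L : ℕ) (y : Fin m → ℂ) : Prop :=
  ∀ G : ℕ → MvPolynomial (Fin m) ℂ, ComputedOver t L G →
    ∀ j < L, G j ≠ 0 → MvPolynomial.eval y (G j) ≠ 0

theorem ComputedOver.cmp {g m : ℕ} {t : Fin g → ℂ} {L : ℕ} {G : ℕ → MvPolynomial (Fin m) ℂ}
    (h : ComputedOver t L G) : Cmp (algebraicClosure ℚ ℂ) (btm m t) L G := by
  obtain ⟨c, u, a, e, h⟩ := h
  refine ⟨c, fun l b j => Sum.elim (u l b) (a l b) j, e, fun l hl => ?_⟩
  rw [h l hl]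
  refine Finset.sum_congr rfl fun b _ => ?_
  rw [Fintype.prod_sum_type, Algebra.smul_def, IsScalarTower.algebraMap_apply
    (algebraicClosure ℚ ℂ) ℂ (MvPolynomial (Fin m) ℂ)]
  unfold btm
  simp only [Sum.elim_inl, Sum.elim_inr, map_mul, map_prod, map_pow, MvPolynomial.algebraMap_eq]
  have h1 : algebraMap (algebraicClosure ℚ ℂ) ℂ (c l b) = (c l b : ℂ) := rfl
  rw [h1]
  ring

theorem noRelation_of_good {m L : ℕ} (y : Fin m → ℂ)
    (h : Pool.Agent.Zk44.XO.GoodE L (fun i : Fin 0 => (i.elim0 : ℂ)) y) : NoRelation L y := by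
  classical
  intro s α hα hαi G hG j hj hG0 h0
  have hind : AlgebraicIndependent (algebraicClosure ℚ ℂ) (fun i => Complex.exp (α i)) :=
    Pool.Agent.H297R2.exp_algebraicIndependent α hα hαi
  let α' : Fin s → algebraicClosure ℚ ℂ := fun i => ⟨α i, mem_algebraicClosure_iff.2 (hα i)⟩
  let Φ : MvPolynomial (Fin s ⊕ Fin m) (algebraicClosure ℚ ℂ) →ₐ[algebraicClosure ℚ ℂ]
      MvPolynomial (Fin m) ℂ :=
    MvPolynomial.aeval (Sum.elim (fun i => MvPolynomial.C (Complex.exp (α i))) MvPolynomial.X :
      Fin s ⊕ Fin m → MvPolynomial (Fin m) ℂ)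
  have hΦ : Pool.Agent.Zk44.GE.Computed (fun i : Fin 0 => (i.elim0 : ℂ)) L (fun l => Φ (G l)) := by
    obtain ⟨c, a, h, hG⟩ := hG
    refine ⟨c, fun l b => ∑ i, ((a l b (Sum.inl i) : ℕ) : algebraicClosure ℚ ℂ) * α' i,
      fun _ _ _ => 0, fun l b i => a l b (Sum.inr i), h, fun l hl => ?_⟩
    show Φ (G l) = _
    rw [hG l hl, map_sum]
    refine Finset.sum_congr rfl fun b _ => ?_
    have e4 : ((∑ i, ((a l b (Sum.inl i) : ℕ) : algebraicClosure ℚ ℂ) * α' i :
        algebraicClosure ℚ ℂ) : ℂ) = ∑ i, ((a l b (Sum.inl i) : ℕ) : ℂ) * α i := by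
      push_cast
      rfl
    rw [e4, Complex.exp_sum, Fintype.prod_sum_type]
    simp only [Finset.univ_eq_empty, Finset.prod_empty, mul_one, Complex.exp_nat_mul, map_mul,
      map_prod, map_pow]
    have e5 : Φ (MvPolynomial.C (c l b)) = MvPolynomial.C ((c l b : algebraicClosure ℚ ℂ) : ℂ) := by
      show MvPolynomial.aeval _ (MvPolynomial.C (c l b)) = _
      rw [MvPolynomial.aeval_C, IsScalarTower.algebraMap_apply (algebraicClosure ℚ ℂ) ℂ
        (MvPolynomial (Fin m) ℂ), MvPolynomial.algebraMap_eq]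
      rfl
    have e6 : ∀ i, Φ (MvPolynomial.X (Sum.inl i)) = MvPolynomial.C (Complex.exp (α i)) := by
      intro i
      show MvPolynomial.aeval _ (MvPolynomial.X (Sum.inl i)) = _
      rw [MvPolynomial.aeval_X, Sum.elim_inl]
    have e7 : ∀ i, Φ (MvPolynomial.X (Sum.inr i)) = MvPolynomial.X i := by
      intro i
      show MvPolynomial.aeval _ (MvPolynomial.X (Sum.inr i)) = _
      rw [MvPolynomial.aeval_X, Sum.elim_inr]
    simp only [e5, e6, e7]
    ring
  have hne : Φ (G j) ≠ 0 := Pool.Agent.Zk44.GE.subst_ne_zero _ hind (G j) hG0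
  obtain ⟨γ, hγ⟩ := hΦ.cmp
  apply hne
  refine h _ γ _ hγ j hj ?_
  show MvPolynomial.eval y (Φ (G j)) = 0
  rw [← h0]
  have e8 : ((MvPolynomial.aeval y : MvPolynomial (Fin m) ℂ →ₐ[ℂ] ℂ).restrictScalars
      (algebraicClosure ℚ ℂ)).comp Φ =
      MvPolynomial.aeval (Sum.elim (fun i => Complex.exp (α i)) y) := by
    apply MvPolynomial.algHom_ext
    rintro (i | i)
    · simp [Φ]
    · simp [Φ]
  exact DFunLike.congr_fun e8 (G j)

/-- **Main result.** The basis is `b i = z i` for `i` in `ι`, which is the set of all natural numbers or an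
initial segment. -/
theorem result (L₀ : ℕ) (ξ : ℕ → ℂ) (h : ℕ → ℕ) (hh : Monotone h) (V : Submodule ℚ ℂ)
    (hV : ∀ v ∈ V, IsAlgebraic ℚ (Complex.exp v))
    (hd : ((L₀ ^ 2 + 3 * L₀ : ℕ) : Cardinal) < Module.rank ℚ V) :
    ∃ (z : ℕ → ℂ) (ι : Set ℕ) (b : Module.Basis ι ℚ V), (∀ i : ι, (b i : ℂ) = z i) ∧
      (∀ i ∈ ι, ∀ j < i, j ∈ ι) ∧
      (∀ L ≤ L₀, ∀ (n : ℕ) (σ : Fin n → ι), Function.Injective σ →
        NoRelation L (fun j => z (σ j))) ∧
      ∀ L M : ℕ, (L ≤ L₀ ∨ L ^ 2 + 3 * L < M) →
        ∀ (n : ℕ) (σ : Fin n → ι), Function.Injective σ → (∀ j, M ≤ (σ j : ℕ)) →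
          ∀ (s : ℕ) (α : Fin s → ℂ), (∀ i, IsAlgebraic ℚ (α i)) →
            NoRelationOver (Fin.append (fun i => Complex.exp (α i))
              (Fin.append (fun i : Fin M => z i) (fun o : Fin (h M) => ξ o))) L
              (fun j => z (σ j)) := by
  have hd' : ((L₀ * (L₀ + 3) + 1 : ℕ) : Cardinal) ≤ Module.rank ℚ V := by
    have h1 : L₀ * (L₀ + 3) + 1 = (L₀ ^ 2 + 3 * L₀) + 1 := by ring
    rw [h1]
    have h2 := Order.succ_le_of_lt hd
    rwa [Cardinal.succ_natCast, ← Nat.cast_succ] at h2
  obtain ⟨z, ι, b, hb, hlow, hgood⟩ := Pool.Agent.Zk44.UQ.one_basis_exp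
    Pool.Agent.Zk44.UP.exists_der_expP L₀ V hV hd' ξ h hh
  refine ⟨z, ι, b, hb, hlow, fun L hL n σ hσ => ?_, fun L M hL n σ hσ hM s α hα G hG j hj hG0 h0 =>
    hG0 ?_⟩
  · refine noRelation_of_good _ ?_
    have h1 := hgood L 0 0 (Or.inl hL) (Nat.zero_le _) n σ hσ (fun j => Nat.zero_le _)
    have h2 : (Fin.append (fun i : Fin 0 => z i) (fun o : Fin 0 => ξ o) : Fin (0 + 0) → ℂ) =
        fun i : Fin 0 => (i.elim0 : ℂ) := by
      funext i
      exact i.elim0
    rw [h2] at h1
    exact h1
  · have hL' : L ≤ L₀ ∨ L * (L + 3) < M := by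
      rcases hL with hL | hL
      · exact Or.inl hL
      · right
        have h1 : L * (L + 3) = L ^ 2 + 3 * L := by ring
        rwa [h1]
    exact hgood L M (h M) hL' le_rfl n σ hσ hM s
      (fun i => ⟨α i, mem_algebraicClosure_iff.2 (hα i)⟩) G hG.cmp j hj h0

end Pool.Agent.Results.MP_c82530_nt.OneBasisAllExponents
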