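import Pool.Agent.Zk26.BDLog
import Pool.Agent.R350.HI

/-!
# Gel'fond's conjecture: logarithms of the values of rational functions at all but finitely many
algebraic numbers of bounded degree

Let `α_1, …, α_s` be algebraic numbers which are linearly independent over `ℚ` and let `D ≥ 0`.  Let
`f_1, …, f_n` be rational functions with algebraic coefficients such that every product
`f_1 ^ a_1 ⋯ f_n ^ a_n` with integral exponents which are not all `0` has at least `2 d + 1`
different zeros and poles on the projective line.  Let `K` be a number field.  Then for all but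
finitely many algebraic numbers `q` of degree at most `d` over `K` (for `d = 1`: for all but
finitely many `q` in `K`), and for all choices of the logarithms `y_j` of the numbers `f_j(q)`:

* no nontrivial linear combination of `y_1, …, y_n` with algebraic coefficients is in the space
  spanned by `1` and by ALL the coefficients `ℓ_μ` of all the relations
  `∑_μ e ^ (μ_1 α_1 + ⋯ + μ_s α_s) ℓ_μ = 0`, `0 ≤ μ_i ≤ D`, where the `ℓ_μ` are arbitrary linear
  combinations of `1` and of logarithms of algebraic numbers;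
* in particular, if `R_0, …, R_n` are polynomials of degree at most `D` in each variable and
  `R_0(e^α) + R_1(e^α) y_1 + ⋯ + R_n(e^α) y_n` is a linear form in logarithms of algebraic numbers
  then `R_1, …, R_n` are constant; and if it is zero then `R_0 = ⋯ = R_n = 0`.

For instance, for all but finitely many rational numbers `q` the number `log (q ^ 3 - q)` is not
a quotient `R(e) / T(e)` of polynomials of degree at most `D`, nor does `T(e) log (q ^ 3 - q)`
belong to the space of linear forms in logarithms, `T` not constant.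

The proof: by the theorem of D. Roy (strong six exponentials) the space of coefficients has finite
dimension, so by Baker's theorem the exceptions are numbers `q` at which `f_1, …, f_n` are
multiplicatively dependent modulo a group of finite rank.  At such a `q` the ratios of the values
of the minimal polynomial of `q` at `2 d + 1` fixed points are `S`-units, for a fixed set `S`; by
the subspace theorem there are only finitely many such polynomials.
-/

set_option autoImplicit false

namespace Pool.Agent.Results.MP_c82530_nt.PointsOfBoundedDegree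

open Polynomial
open Pool.Agent.H301R2.SSE (Lt Lt_one)

/-- the linear combinations, with algebraic coefficients, of `1` and logarithms of algebraic numbers -/
noncomputable def LogForms : Submodule (algebraicClosure ℚ ℂ) ℂ :=
  Submodule.span (algebraicClosure ℚ ℂ) ({1} ∪ {z : ℂ | IsAlgebraic ℚ (Complex.exp z)})

/-- the space spanned by `1` and the coefficients of all relations
`∑_μ e ^ (μ_1 α_1 + ⋯ + μ_s α_s) ℓ_μ = 0`, `0 ≤ μ_i ≤ D`, `ℓ_μ ∈ LogForms` -/
noncomputable def RelCoeffs {s : ℕ} (D : ℕ) (α : Fin s → ℂ) :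
    Submodule (algebraicClosure ℚ ℂ) ℂ :=
  Submodule.span (algebraicClosure ℚ ℂ) ({1} ∪ {z : ℂ | ∃ ℓ : (Fin s → Fin (D + 1)) → ℂ,
    (∀ μ, ℓ μ ∈ LogForms) ∧ ∑ μ, Complex.exp (∑ i, (μ i : ℕ) * α i) * ℓ μ = 0 ∧ ∃ μ, z = ℓ μ})

/-- the order of vanishing of the rational function `P / Q` at a point of the projective line
(`none` is the point at infinity); negative at the poles -/
noncomputable def order (P Q : (algebraicClosure ℚ ℂ)[X]) : Option (algebraicClosure ℚ ℂ) → ℤ
  | some z => (P.rootMultiplicity z : ℤ) - Q.rootMultiplicity z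
  | none => (Q.natDegree : ℤ) - P.natDegree

/-- the coefficients of a polynomial of bounded degree -/
theorem aeval_box {s D : ℕ} (α : Fin s → ℂ) (R : MvPolynomial (Fin s) (algebraicClosure ℚ ℂ))
    (hR : ∀ i, R.degreeOf i ≤ D) :
    MvPolynomial.aeval (fun i => Complex.exp (α i)) R = ∑ μ : Fin s → Fin (D + 1),
      Complex.exp (∑ i, (μ i : ℕ) * α i) *
        ((R.coeff (Finsupp.equivFunOnFinite.symm fun i => (μ i : ℕ)) : algebraicClosure ℚ ℂ) : ℂ) := by
  classical
  have hinj : Function.Injective (fun μ : Fin s → Fin (D + 1) =>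
      (Finsupp.equivFunOnFinite.symm fun i => (μ i : ℕ) : Fin s →₀ ℕ)) := by
    intro μ ν h
    funext i
    have h1 := DFunLike.congr_fun h i
    exact Fin.ext h1
  have h1 : R.support ⊆ Finset.univ.image (fun μ : Fin s → Fin (D + 1) =>
      (Finsupp.equivFunOnFinite.symm fun i => (μ i : ℕ) : Fin s →₀ ℕ)) := by
    intro β hβ
    rw [Finset.mem_image]
    refine ⟨fun i => ⟨β i, ?_⟩, Finset.mem_univ _, ?_⟩
    · exact Nat.lt_succ_of_le ((MvPolynomial.monomial_le_degreeOf i hβ).trans (hR i))
    · ext i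
      rfl
  rw [MvPolynomial.aeval_def, MvPolynomial.eval₂_eq', Finset.sum_subset h1, Finset.sum_image
    (fun μ _ ν _ h => hinj h)]
  · refine Finset.sum_congr rfl fun μ _ => ?_
    rw [mul_comm]
    congr 1
    rw [Complex.exp_sum]
    refine Finset.prod_congr rfl fun i _ => ?_
    exact (Complex.exp_nat_mul _ _).symm
  · intro β _ hβ
    rw [MvPolynomial.notMem_support_iff.mp hβ, map_zero, zero_mul]

/-- **Main result.** -/
theorem result {s n : ℕ} (D d : ℕ) (α : Fin s → ℂ) (hα : ∀ i, IsAlgebraic ℚ (α i))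
    (hαi : LinearIndependent ℚ α) (K : IntermediateField ℚ ℂ) [FiniteDimensional ℚ K]
    (P Q : Fin n → (algebraicClosure ℚ ℂ)[X]) (hP : ∀ j, P j ≠ 0) (hQ : ∀ j, Q j ≠ 0)
    (hPQ : ∀ a : Fin n → ℤ, a ≠ 0 →
      2 * d + 1 ≤ {z | ∑ j, a j * order (P j) (Q j) z ≠ 0}.ncard) :
    {q : ℂ | IsIntegral K q ∧ (minpoly K q).natDegree ≤ d ∧
      ¬ ((∀ j, aeval q (P j) ≠ 0 ∧ aeval q (Q j) ≠ 0) ∧
        ∀ y : Fin n → ℂ, (∀ j, Complex.exp (y j) = aeval q (P j) / aeval q (Q j)) →
          (∀ c : Fin n → algebraicClosure ℚ ℂ, ∑ j, c j • y j ∈ RelCoeffs D α → c = 0) ∧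
          ∀ (R₀ : MvPolynomial (Fin s) (algebraicClosure ℚ ℂ))
            (R : Fin n → MvPolynomial (Fin s) (algebraicClosure ℚ ℂ)),
            (∀ i, R₀.degreeOf i ≤ D) → (∀ j i, (R j).degreeOf i ≤ D) →
            (MvPolynomial.aeval (fun i => Complex.exp (α i)) R₀ +
                ∑ j, MvPolynomial.aeval (fun i => Complex.exp (α i)) (R j) * y j ∈ LogForms →
              ∀ j, ∃ c, R j = MvPolynomial.C c) ∧
            (MvPolynomial.aeval (fun i => Complex.exp (α i)) R₀ +
                ∑ j, MvPolynomial.aeval (fun i => Complex.exp (α i)) (R j) * y j = 0 →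
              R₀ = 0 ∧ ∀ j, R j = 0))}.Finite := by
  classical
  have hEf : Module.Finite (algebraicClosure ℚ ℂ) (RelCoeffs D α) :=
    (Pool.Agent.R350.relC_bound D α hα hαi).1
  have hEle : RelCoeffs D α ≤ Lt := by
    rw [RelCoeffs, Submodule.span_le]
    rintro z (hz | ⟨ℓ, h1, -, μ, rfl⟩)
    · rw [Set.mem_singleton_iff] at hz
      rw [hz]
      exact Lt_one
    · exact h1 μ
  have hone : (1 : ℂ) ∈ RelCoeffs D α := Submodule.subset_span (Or.inl rfl)
  have hord : ∀ (P Q : (algebraicClosure ℚ ℂ)[X]) (o), Pool.Agent.Zk26.ordQ P Q o = order P Q o := by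
    intro P Q o
    cases o <;> rfl
  have hbad := Pool.Agent.Zk26.log_bd (E := RelCoeffs D α) hEle hEf K d n P Q hP hQ (by
    intro a ha
    have h1 := hPQ a ha
    simp only [hord]
    exact h1)
  -- the zeros and poles
  have hroots : (⋃ j : Fin n, {q : ℂ | aeval q (P j) = 0} ∪ {q : ℂ | aeval q (Q j) = 0}).Finite := by
    refine Set.finite_iUnion fun j => ?_
    have h1 : ∀ R : (algebraicClosure ℚ ℂ)[X], R ≠ 0 → {q : ℂ | aeval q R = 0}.Finite := by
      intro R hR
      have h2 : R.map (algebraMap (algebraicClosure ℚ ℂ) ℂ) ≠ 0 := by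
        rwa [Ne, Polynomial.map_eq_zero]
      refine ((R.map (algebraMap (algebraicClosure ℚ ℂ) ℂ)).roots.toFinset.finite_toSet).subset
        fun q hq => ?_
      rw [Finset.mem_coe, Multiset.mem_toFinset, mem_roots h2, IsRoot.def, eval_map_algebraMap]
      exact hq
    exact (h1 _ (hP j)).union (h1 _ (hQ j))
  refine (hbad.union hroots).subset ?_
  rintro q ⟨hq, hqd, hno⟩
  by_contra hout
  apply hno
  have h0 : ∀ j, aeval q (P j) ≠ 0 ∧ aeval q (Q j) ≠ 0 := by
    intro j
    constructor
    · intro h1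
      exact hout (Or.inr (Set.mem_iUnion.mpr ⟨j, Or.inl h1⟩))
    · intro h1
      exact hout (Or.inr (Set.mem_iUnion.mpr ⟨j, Or.inr h1⟩))
  refine ⟨h0, fun y hy => ?_⟩
  have hind : ∀ c : Fin n → algebraicClosure ℚ ℂ, ∑ j, c j • y j ∈ RelCoeffs D α → c = 0 := by
    intro c hc
    by_contra hc0
    exact hout (Or.inl ⟨hq, hqd, h0, y, hy, c, hc0, hc⟩)
  refine ⟨hind, fun R₀ R hR₀ hR => ?_⟩
  have hylog : ∀ j, y j ∈ LogForms := by
    intro j
    refine Submodule.subset_span (Or.inr ?_)
    show IsAlgebraic ℚ (Complex.exp (y j))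
    rw [hy j]
    have hqalg : IsAlgebraic ℚ q := by
      have h1 : IsAlgebraic K q := hq.isAlgebraic
      exact h1.restrictScalars ℚ
    have h2 : ∀ T : (algebraicClosure ℚ ℂ)[X], IsAlgebraic ℚ (aeval q T) := by
      intro T
      rw [← Pool.Agent.H301R2.SSE.mem_QB]
      have h3 := aeval_algebraMap_apply ℂ
        (⟨q, Pool.Agent.H301R2.SSE.mem_QB.mpr hqalg⟩ : algebraicClosure ℚ ℂ) T
      rw [coe_aeval_eq_eval] at h3
      have h4 : aeval q T = ((T.eval (⟨q, Pool.Agent.H301R2.SSE.mem_QB.mpr hqalg⟩ :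
        algebraicClosure ℚ ℂ) : algebraicClosure ℚ ℂ) : ℂ) := h3
      rw [h4]
      exact (T.eval _).2
    rw [div_eq_mul_inv]
    exact (h2 _).mul (h2 _).inv
  -- the coefficients of a relation
  have key : ∀ ℓ ∈ LogForms, MvPolynomial.aeval (fun i => Complex.exp (α i)) R₀ +
      ∑ j, MvPolynomial.aeval (fun i => Complex.exp (α i)) (R j) * y j = ℓ →
      ∀ μ : Fin s → Fin (D + 1), (μ ≠ 0 ∨ ℓ = 0) → ∀ j,
        (R j).coeff (Finsupp.equivFunOnFinite.symm fun i => (μ i : ℕ)) = 0 := by
    intro ℓ hℓ hsum μ hμ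
    let co : MvPolynomial (Fin s) (algebraicClosure ℚ ℂ) → (Fin s → Fin (D + 1)) →
        algebraicClosure ℚ ℂ := fun T ν =>
      T.coeff (Finsupp.equivFunOnFinite.symm fun i => (ν i : ℕ))
    let L : (Fin s → Fin (D + 1)) → ℂ := fun ν =>
      (co R₀ ν : ℂ) + ∑ j, (co (R j) ν : ℂ) * y j - (if ν = 0 then ℓ else 0)
    have hsmul : ∀ (c : algebraicClosure ℚ ℂ) (z : ℂ), (c : ℂ) * z = c • z := fun c z => by
      rw [Algebra.smul_def]
      rfl
    have hL : ∀ ν, L ν ∈ LogForms := by
      intro ν
      refine LogForms.sub_mem (LogForms.add_mem ?_ ?_) ?_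
      · rw [← mul_one (co R₀ ν : ℂ), hsmul]
        exact LogForms.smul_mem _ (Submodule.subset_span (Or.inl rfl))
      · refine LogForms.sum_mem fun j _ => ?_
        rw [hsmul]
        exact LogForms.smul_mem _ (hylog j)
      · split_ifs
        · exact hℓ
        · exact LogForms.zero_mem
    have hrel : ∑ ν, Complex.exp (∑ i, (ν i : ℕ) * α i) * L ν = 0 := by
      have h1 : ∀ ν, Complex.exp (∑ i, (ν i : ℕ) * α i) * L ν =
          Complex.exp (∑ i, (ν i : ℕ) * α i) * (co R₀ ν : ℂ) +
          ∑ j, (Complex.exp (∑ i, (ν i : ℕ) * α i) * (co (R j) ν : ℂ)) * y j -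
            (if ν = 0 then Complex.exp (∑ i, (ν i : ℕ) * α i) * ℓ else 0) := by
        intro ν
        show Complex.exp (∑ i, (ν i : ℕ) * α i) * ((co R₀ ν : ℂ) + ∑ j, (co (R j) ν : ℂ) * y j -
          (if ν = 0 then ℓ else 0)) = _
        rw [mul_sub, mul_add, Finset.mul_sum, mul_ite, mul_zero]
        congr 2
        refine Finset.sum_congr rfl fun j _ => ?_
        ring
      rw [Finset.sum_congr rfl (fun ν _ => h1 ν), Finset.sum_sub_distrib, Finset.sum_add_distrib,
        Finset.sum_comm, Finset.sum_ite_eq' Finset.univ (0 : Fin s → Fin (D + 1)),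
        if_pos (Finset.mem_univ _)]
      have h2 : ∑ i, (((0 : Fin s → Fin (D + 1)) i : ℕ) : ℂ) * α i = 0 := by
        refine Finset.sum_eq_zero fun i _ => ?_
        simp
      rw [h2, Complex.exp_zero, one_mul, ← hsum, aeval_box α R₀ hR₀]
      have h3 : ∀ j, MvPolynomial.aeval (fun i => Complex.exp (α i)) (R j) * y j =
          ∑ ν, Complex.exp (∑ i, (ν i : ℕ) * α i) * (co (R j) ν : ℂ) * y j := by
        intro j
        rw [aeval_box α (R j) (hR j), Finset.sum_mul]
      rw [Finset.sum_congr rfl (fun j _ => h3 j)]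
      ring
    have hLE : L μ ∈ RelCoeffs D α := Submodule.subset_span (Or.inr ⟨L, hL, hrel, μ, rfl⟩)
    have hy2 : ∑ j, co (R j) μ • y j ∈ RelCoeffs D α := by
      have h4 : ∑ j, co (R j) μ • y j = L μ - co R₀ μ • (1 : ℂ) := by
        have h5 : (if μ = 0 then ℓ else 0) = 0 := by
          rcases hμ with h6 | h6
          · rw [if_neg h6]
          · rw [h6, ite_self]
        show _ = (co R₀ μ : ℂ) + ∑ j, (co (R j) μ : ℂ) * y j - (if μ = 0 then ℓ else 0) - _
        rw [h5, ← hsmul, mul_one, sub_zero, add_sub_cancel_left]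
        refine Finset.sum_congr rfl fun j _ => ?_
        rw [hsmul]
      rw [h4]
      exact (RelCoeffs D α).sub_mem hLE ((RelCoeffs D α).smul_mem _ hone)
    intro j
    exact congrFun (hind _ hy2) j
  -- a polynomial whose coefficients in the box vanish
  have hbox : ∀ j, ∀ β : Fin s →₀ ℕ, (∀ μ : Fin s → Fin (D + 1),
      β = (Finsupp.equivFunOnFinite.symm fun i => (μ i : ℕ)) → (R j).coeff β = 0) →
      (R j).coeff β = 0 := by
    intro j β hβ
    by_cases hsupp : β ∈ (R j).support
    · refine hβ (fun i => ⟨β i, Nat.lt_succ_of_le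
        ((MvPolynomial.monomial_le_degreeOf i hsupp).trans (hR j i))⟩) ?_
      ext i
      rfl
    · exact MvPolynomial.notMem_support_iff.mp hsupp
  constructor
  · intro hmem j
    refine ⟨(R j).coeff 0, ?_⟩
    ext β
    rw [MvPolynomial.coeff_C]
    by_cases hβ0 : 0 = β
    · rw [if_pos hβ0, hβ0]
    · rw [if_neg hβ0]
      congr 1
      refine hbox j β fun μ hμ => ?_
      rw [hμ]
      refine key _ hmem rfl μ (Or.inl ?_) j
      rintro rfl
      apply hβ0
      rw [hμ]
      ext i
      rfl
  · intro hzero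
    have hR0 : ∀ j, R j = 0 := by
      intro j
      ext β
      rw [MvPolynomial.coeff_zero]
      congr 1
      refine hbox j β fun μ hμ => ?_
      rw [hμ]
      exact key 0 LogForms.zero_mem hzero μ (Or.inr rfl) j
    refine ⟨?_, hR0⟩
    have h1 : MvPolynomial.aeval (fun i => Complex.exp (α i)) R₀ = 0 := by
      rw [← hzero]
      have h2 : ∑ j, MvPolynomial.aeval (fun i => Complex.exp (α i)) (R j) * y j = 0 := by
        refine Finset.sum_eq_zero fun j _ => ?_
        rw [hR0 j, map_zero, zero_mul]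
      rw [h2, add_zero]
    exact Pool.Agent.H297R2.exp_noRel R₀.totalDegree α hα hαi R₀ le_rfl h1

end Pool.Agent.Results.MP_c82530_nt.PointsOfBoundedDegree
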